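import Mathlib
import Pool.Agent.Run7.h950.Final

/-!
# Two colours and sums of at most three terms

Over `RCA₀`, Hindman's theorem for two colours and sums of at most three terms implies `ACA₀`.

`L2Structure` (structures for the language of second-order arithmetic, Henkin semantics),
`IsModelRCA0` and `ArithComp` are in `Pool.Agent.Helper617.RM.Defs` and
`Pool.Agent.Helper617.RM.HLDefs`.

The colouring. Let `e i` be the stage at which `i` is enumerated. Write `x = 2 ^ l * w` with `w`
odd. The colour of `x` is the parity of `l`, plus `0` or `1` according to whether `w` is `1` or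
`-1` modulo `8` or not (this changes under multiplication by `3`), plus `F l w`, where
`F (2 g) w` is the parity of the number of gaps between neighbouring ones in the binary expansion
of (a small multiple of) `w` for which some `i < g` is enumerated in the gap. So that there are no
three equal colours at `w`, `2 w`, `3 w` in the limit, `F l` is only allowed to change from `l` to
`l + 1` at those `w` where `F l w = F l (3 w)`. This is achieved by fixing the ends of the
changes for `i` along the orbits of multiplication by `3` at a class of numbers which belongs to
`i` alone.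
-/

namespace Pool.Agent.Results.MP_69fea5_lc.TwoColoursThreeSums

open Pool.Agent.Helper617.RM

universe u

/-- The sum, computed in the structure, of a (standard) finite list of numbers. -/
def sumL (N : L2Structure.{u}) : List N.M → N.M
  | [] => N.zero
  | a :: l => N.add a (sumL N l)

/-- `FS^{≤ n}(X)`: the set of sums of at least one and at most `n` distinct elements of `X`. -/
def FSle (N : L2Structure.{u}) (n : ℕ) (X : Set N.M) : Set N.M :=
  {s | ∃ l : List N.M, l ≠ [] ∧ l.length ≤ n ∧ l.Nodup ∧ (∀ x ∈ l, x ∈ X) ∧ s = sumL N l}

/-- The principle `HT_k^{≤ n}` in the structure `N`: for every colouring `c` of the numbers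
with `k` colours that exists in the structure (every colour class is one of the sets of the
structure) there is an unbounded set `X` of the structure such that `c` is constant on
`FS^{≤ n}(X)`. -/
def HT (N : L2Structure.{u}) (n k : ℕ) : Prop :=
  ∀ c : N.M → Fin k, (∀ i, {x | c x = i} ∈ N.Sets) →
    ∃ X ∈ N.Sets, (∀ b, ∃ x ∈ X, N.lt b x) ∧ ∃ i : Fin k, ∀ s ∈ FSle N n X, c s = i

/-- In every model `N` of `RCA₀` the principle `HT_2^{≤ 3}` implies arithmetical
comprehension. -/
theorem result (N : L2Structure.{u}) (hN : IsModelRCA0 N) (h : HT N 3 2) : ArithComp N := by
  have hrev : Sig1 N := by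
    refine Run7.h950.rev3 N fun C hC => ?_
    obtain ⟨X, hX, hinf, i, hi⟩ := h C (fun i => comp_D0 (P := fun x => C x = i) (hC i))
    have hsing : ∀ x, x ∈ X → C x = i := by
      intro x hx
      refine hi x ⟨[x], by simp, by simp, by simp, by simpa using hx, ?_⟩
      exact (IsModelRCA0.ax_add_zero x).symm
    refine ⟨X, hX, hinf, ?_, ?_⟩
    · intro x hx y hy hxy
      rw [hsing x hx]
      refine hi _ ⟨[x, y], by simp, by simp, by simpa using hxy.ne, ?_, ?_⟩
      · intro z hz
        simp only [List.mem_cons, List.not_mem_nil, or_false] at hz
        rcases hz with rfl | rfl <;> assumption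
      · show x + y = N.add x (N.add y N.zero)
        rw [IsModelRCA0.ax_add_zero]
        rfl
    · intro x hx y hy z hz hxy hyz
      rw [hsing x hx]
      refine hi _ ⟨[x, y, z], by simp, by simp, ?_, ?_, ?_⟩
      · simp only [List.nodup_cons, List.mem_cons, List.not_mem_nil, or_false,
          not_or, not_false_eq_true, List.nodup_nil, and_true]
        exact ⟨⟨hxy.ne, (hxy.trans hyz).ne⟩, hyz.ne⟩
      · intro t ht
        simp only [List.mem_cons, List.not_mem_nil, or_false] at ht
        rcases ht with rfl | rfl | rfl <;> assumption
      · show x + y + z = N.add x (N.add y (N.add z N.zero))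
        rw [IsModelRCA0.ax_add_zero]
        exact add_assoc x y z
  exact arithComp_of_sig1

end Pool.Agent.Results.MP_69fea5_lc.TwoColoursThreeSums
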